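import Pool.Agent.Helper89.Vol.Goals

set_option autoImplicit false

namespace Pool.Agent.Helper22.Vol.PkD4

open Pool.Agent.Helper86.Poly Pool.Agent.Helper89.Vol

/-- expansion along the last column, which is a unit vector -/
lemma expand {n : ℕ} (A : Matrix (Fin (n + 1)) (Fin (n + 1)) ℝ) (i : Fin (n + 1))
    (h : ∀ k, A k (Fin.last n) = if k = i then 1 else 0) :
    A.det = (-1) ^ ((i : ℕ) + n) * (A.submatrix i.succAbove Fin.castSucc).det := by
  rw [Matrix.det_succ_column A (Fin.last n), Finset.sum_eq_single i]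
  · rw [h i, if_pos rfl, mul_one, Fin.succAbove_last, Fin.val_last]
  · intro k _ hk
    rw [h k, if_neg hk]; ring
  · intro h'; exact absurd (Finset.mem_univ _) h'

/-- the `4 × 4` determinant is `br` -/
lemma four (p q r t : E 3) :
    Matrix.det !![1, p 0, p 1, p 2; 1, q 0, q 1, q 2; 1, r 0, r 1, r 2; 1, t 0, t 1, t 2] =
      br p q r t := by
  unfold br
  rw [Matrix.det_succ_row_zero]
  simp [Fin.sum_univ_succ, Matrix.det_fin_three, Fin.succAbove, Matrix.submatrix]
  ring

/-- the two expansions -/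
lemma two (x : Fin 6 → E 3) (j : Fin 6) (i : Fin 5) :
    Dt x (j.succAbove i) j = (-1) ^ ((j : ℕ) + 5) * ((-1) ^ ((i : ℕ) + 4) *
      br (x (j.succAbove (i.succAbove 0))) (x (j.succAbove (i.succAbove 1)))
        (x (j.succAbove (i.succAbove 2))) (x (j.succAbove (i.succAbove 3)))) := by
  unfold Dt W
  rw [expand _ j, expand _ i]
  · congr 2
    rw [← four]
    congr 1
    ext a b
    fin_cases a <;> fin_cases b <;> rfl
  · intro k
    show (Pi.single (j.succAbove i) (1 : ℝ) : Fin 6 → ℝ) (j.succAbove k) = _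
    rw [Pi.single_apply]
    congr 1
    exact propext (Fin.succAbove_right_injective.eq_iff)
  · intro k
    show (Pi.single j (1 : ℝ) : Fin 6 → ℝ) k = _
    rw [Pi.single_apply]

theorem thm : Pool.Agent.Helper89.Vol.G_D4 := by
  intro x
  refine ⟨?_, ?_, ?_, ?_, ?_, ?_⟩
  · have h := two x 3 2
    rw [show (3 : Fin 6).succAbove 2 = 2 from rfl] at h
    rw [h]
    norm_num
    rfl
  · have h := two x 4 2
    rw [show (4 : Fin 6).succAbove 2 = 2 from rfl] at h
    rw [h]
    norm_num
    rfl
  · have h := two x 5 2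
    rw [show (5 : Fin 6).succAbove 2 = 2 from rfl] at h
    rw [h]
    norm_num
    rfl
  · have h := two x 4 3
    rw [show (4 : Fin 6).succAbove 3 = 3 from rfl] at h
    rw [h]
    norm_num
    rfl
  · have h := two x 5 3
    rw [show (5 : Fin 6).succAbove 3 = 3 from rfl] at h
    rw [h]
    norm_num
    rfl
  · have h := two x 5 4
    rw [show (5 : Fin 6).succAbove 4 = 4 from rfl] at h
    rw [h]
    norm_num
    rfl

end Pool.Agent.Helper22.Vol.PkD4
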